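import Pool.Agent.Q283.FT.Stm3

/-!
# Project FT (helper283): classes of points of `y² = (x - e 0) (x - e 1) (x - e 2)` (job KUA)
-/

set_option autoImplicit false

namespace Pool.Agent.Q13.FT

open WeierstrassCurve
open Pool.Agent.TH841.SH (IsR)
open Pool.Agent.TH841.SH.D (Pt)
open Pool.Agent.Q283.FT (crv Rt df Cx S_KUA)

section
variable {F : Type} [Field F] {e : Fin 3 → F}

lemma df_ne (h : Rt e) (l : Fin 3) : df e l ≠ 0 := by
  unfold df
  have h01 : e 0 ≠ e 1 := fun h' => absurd (h.inj h') (by decide)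
  have h02 : e 0 ≠ e 2 := fun h' => absurd (h.inj h') (by decide)
  have h12 : e 1 ≠ e 2 := fun h' => absurd (h.inj h') (by decide)
  split_ifs
  · exact sub_ne_zero.2 h12
  · exact sub_ne_zero.2 h02
  · exact sub_ne_zero.2 h01

variable (L : Type) [Field L] [Algebra F L]

lemma isR (h : Rt e) : IsR ((crv e).baseChange L) (algebraMap F L (e 0)) (algebraMap F L (e 1))
    (algebraMap F L (e 2)) := by
  refine ⟨?_, ?_, ?_, ?_, ?_⟩
  · show algebraMap F L 0 = 0
    exact map_zero _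
  · show algebraMap F L 0 = _
    rw [← map_add, ← map_add, h.sum, map_zero, neg_zero]
  · show algebraMap F L 0 = 0
    exact map_zero _
  · show algebraMap F L (e 0 * e 1 + e 0 * e 2 + e 1 * e 2) = _
    simp only [map_add, map_mul]
  · show algebraMap F L (-(e 0 * e 1 * e 2)) = _
    simp only [map_neg, map_mul]

/-- two elements which are equal up to squares to the same nonzero element -/
lemma quot {c a a' : L} (hc : c ≠ 0) (ha' : a' ≠ 0) (h : IsSquare (a * c)) (h' : IsSquare (a' * c)) :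
    IsSquare (a / a') := by
  obtain ⟨r, hr⟩ := h
  obtain ⟨s, hs⟩ := h'
  have hs0 : s ≠ 0 := by
    rintro rfl
    exact mul_ne_zero ha' hc (by rw [hs]; ring)
  refine ⟨r / s, ?_⟩
  rw [div_mul_div_comm, ← hr, ← hs, mul_div_mul_right _ _ hc]

lemma cx_pt {P : Pt (crv e) L} {x y : L} (h : ((crv e).baseChange L).toAffine.Nonsingular x y)
    (hP : P = Affine.Point.some x y h) {a b : L} (hc : Cx e L P a b) :
    a ≠ 0 ∧ b ≠ 0 ∧
      ((x ≠ algebraMap F L (e 0) ∧ IsSquare (a * (x - algebraMap F L (e 0)))) ∨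
        (x = algebraMap F L (e 0) ∧ IsSquare (a * algebraMap F L (df e 1 * df e 2)))) ∧
      ((x ≠ algebraMap F L (e 1) ∧ IsSquare (b * (x - algebraMap F L (e 1)))) ∨
        (x = algebraMap F L (e 1) ∧ IsSquare (b * algebraMap F L (df e 0 * df e 2)))) := by
  obtain ⟨ha, hb, h0 | ⟨x', y', h', hP', hx, hy⟩⟩ := hc
  · exact absurd (h0.1.symm.trans hP).symm (by intro h3; exact absurd h3 (Affine.Point.some_ne_zero h))
  · have h1 : (Affine.Point.some x' y' h' : ((crv e).baseChange L).toAffine.Point) = Affine.Point.some x y h :=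
      hP'.symm.trans hP
    have h2 : x' = x := by
      injection h1
    subst h2
    exact ⟨ha, hb, hx, hy⟩

theorem kua : S_KUA := by
  intro F _ _ i hi e he L _ _
  have hd : ∀ l, algebraMap F L (df e l) ≠ 0 := fun l =>
    (map_ne_zero (algebraMap F L)).2 (df_ne he l)
  have d12 : algebraMap F L (df e 1 * df e 2) ≠ 0 := by
    rw [map_mul]; exact mul_ne_zero (hd 1) (hd 2)
  have d02 : algebraMap F L (df e 0 * df e 2) ≠ 0 := by
    rw [map_mul]; exact mul_ne_zero (hd 0) (hd 2)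
  have E0 : df e 0 = e 1 - e 2 := rfl
  have E1 : df e 1 = e 0 - e 2 := rfl
  have E2 : df e 2 = e 0 - e 1 := rfl
  have hinj : Function.Injective (algebraMap F L) := (algebraMap F L).injective
  have n01 : algebraMap F L (e 0) ≠ algebraMap F L (e 1) := fun h' =>
    absurd (he.inj (hinj h')) (by decide)
  have n02 : algebraMap F L (e 0) ≠ algebraMap F L (e 2) := fun h' =>
    absurd (he.inj (hinj h')) (by decide)
  have n12 : algebraMap F L (e 1) ≠ algebraMap F L (e 2) := fun h' =>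
    absurd (he.inj (hinj h')) (by decide)
  have hi' : algebraMap F L i ^ 2 = -1 := by rw [← map_pow, hi, map_neg, map_one]
  refine ⟨?_, ?_, ?_, ?_, ?_⟩
  · -- existence
    intro P
    change ((crv e).baseChange L).toAffine.Point at P
    rcases P with _ | ⟨x, y, h⟩
    · exact ⟨1, 1, one_ne_zero, one_ne_zero, Or.inl ⟨rfl, IsSquare.one, IsSquare.one⟩⟩
    · by_cases h0 : x = algebraMap F L (e 0)
      · have h1 : x ≠ algebraMap F L (e 1) := by rw [h0]; exact n01
        exact ⟨algebraMap F L (df e 1 * df e 2), x - algebraMap F L (e 1), d12, sub_ne_zero.2 h1,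
          Or.inr ⟨x, y, h, rfl, Or.inr ⟨h0, ⟨_, rfl⟩⟩, Or.inl ⟨h1, ⟨_, rfl⟩⟩⟩⟩
      · by_cases h1 : x = algebraMap F L (e 1)
        · exact ⟨x - algebraMap F L (e 0), algebraMap F L (df e 0 * df e 2), sub_ne_zero.2 h0, d02,
            Or.inr ⟨x, y, h, rfl, Or.inl ⟨h0, ⟨_, rfl⟩⟩, Or.inr ⟨h1, ⟨_, rfl⟩⟩⟩⟩
        · exact ⟨x - algebraMap F L (e 0), x - algebraMap F L (e 1), sub_ne_zero.2 h0,
            sub_ne_zero.2 h1,
            Or.inr ⟨x, y, h, rfl, Or.inl ⟨h0, ⟨_, rfl⟩⟩, Or.inl ⟨h1, ⟨_, rfl⟩⟩⟩⟩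
  · -- uniqueness
    intro P a b a' b' h h'
    rcases h.2.2 with h0 | ⟨x, y, hx, hP, -, -⟩
    · rcases h'.2.2 with h0' | ⟨x, y, hx, hP, -, -⟩
      · exact ⟨h0.2.1.div h0'.2.1, h0.2.2.div h0'.2.2⟩
      · exact absurd (hP.symm.trans h0.1) (Affine.Point.some_ne_zero hx)
    · obtain ⟨ha, hb, hA, hB⟩ := cx_pt L hx hP h
      obtain ⟨ha', hb', hA', hB'⟩ := cx_pt L hx hP h'
      constructor
      · rcases hA with hA | hA
        · rcases hA' with hA' | hA'
          · exact quot L (sub_ne_zero.2 hA.1) ha' hA.2 hA'.2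
          · exact absurd hA'.1 hA.1
        · rcases hA' with hA' | hA'
          · exact absurd hA.1 hA'.1
          · exact quot L d12 ha' hA.2 hA'.2
      · rcases hB with hB | hB
        · rcases hB' with hB' | hB'
          · exact quot L (sub_ne_zero.2 hB.1) hb' hB.2 hB'.2
          · exact absurd hB'.1 hB.1
        · rcases hB' with hB' | hB'
          · exact absurd hB.1 hB'.1
          · exact quot L d02 hb' hB.2 hB'.2
  · -- squares
    intro P a b s s' hs hs' h
    have key : ∀ u v w : L, IsSquare (u * v) → IsSquare (u * w ^ 2 * v) := by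
      rintro u v w ⟨r, hr⟩
      exact ⟨r * w, by rw [show u * w ^ 2 * v = (u * v) * (w * w) by ring, hr]; ring⟩
    have key1 : ∀ u w : L, IsSquare u → IsSquare (u * w ^ 2) := by
      rintro u w ⟨r, hr⟩
      exact ⟨r * w, by rw [hr]; ring⟩
    refine ⟨mul_ne_zero h.1 (pow_ne_zero _ hs), mul_ne_zero h.2.1 (pow_ne_zero _ hs'), ?_⟩
    rcases h.2.2 with h0 | ⟨x, y, hx, hP, hA, hB⟩
    · exact Or.inl ⟨h0.1, key1 _ _ h0.2.1, key1 _ _ h0.2.2⟩
    · refine Or.inr ⟨x, y, hx, hP, ?_, ?_⟩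
      · rcases hA with hA | hA
        · exact Or.inl ⟨hA.1, key _ _ _ hA.2⟩
        · exact Or.inr ⟨hA.1, key _ _ _ hA.2⟩
      · rcases hB with hB | hB
        · exact Or.inl ⟨hB.1, key _ _ _ hB.2⟩
        · exact Or.inr ⟨hB.1, key _ _ _ hB.2⟩
  · exact ⟨one_ne_zero, one_ne_zero, Or.inl ⟨rfl, IsSquare.one, IsSquare.one⟩⟩
  · have two : (2 : L) ≠ 0 := by
      have h2 : algebraMap F L 2 ≠ 0 := (map_ne_zero (algebraMap F L)).2 two_ne_zero
      rwa [map_ofNat] at h2
    have ns : ∀ x : L, (0 : L) = (x - algebraMap F L (e 0)) * (x - algebraMap F L (e 1)) *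
        (x - algebraMap F L (e 2)) → ((crv e).baseChange L).toAffine.Nonsingular x 0 := by
      intro x hx
      refine (isR L he).nons two n01 n02 n12 ?_
      rw [← hx]
      ring
    have h0 := ns (algebraMap F L (e 0)) (by rw [sub_self, zero_mul, zero_mul])
    have h1 := ns (algebraMap F L (e 1)) (by rw [sub_self, mul_zero, zero_mul])
    have h2 := ns (algebraMap F L (e 2)) (by rw [sub_self, mul_zero])
    have t0 : Cx e L (Affine.Point.some (algebraMap F L (e 0)) 0 h0)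
        (algebraMap F L (df e 1 * df e 2)) (algebraMap F L (df e 2)) := by
      refine ⟨d12, hd 2, Or.inr ⟨_, _, h0, rfl, Or.inr ⟨rfl, ⟨_, rfl⟩⟩, Or.inl ⟨n01, ?_⟩⟩⟩
      rw [← map_sub, ← E2]
      exact ⟨_, rfl⟩
    have t1 : Cx e L (Affine.Point.some (algebraMap F L (e 1)) 0 h1)
        (algebraMap F L (df e 2)) (algebraMap F L (df e 0 * df e 2)) := by
      refine ⟨hd 2, d02, Or.inr ⟨_, _, h1, rfl, Or.inl ⟨n01.symm, ?_⟩, Or.inr ⟨rfl, ⟨_, rfl⟩⟩⟩⟩
      refine ⟨algebraMap F L i * algebraMap F L (df e 2), ?_⟩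
      rw [E2, map_sub]
      linear_combination (-(algebraMap F L (e 0) - algebraMap F L (e 1)) ^ 2) * hi'
    have t2 : Cx e L (Affine.Point.some (algebraMap F L (e 2)) 0 h2)
        (algebraMap F L (df e 1)) (algebraMap F L (df e 0)) := by
      refine ⟨hd 1, hd 0, Or.inr ⟨_, _, h2, rfl, Or.inl ⟨n02.symm, ?_⟩, Or.inl ⟨n12.symm, ?_⟩⟩⟩
      · refine ⟨algebraMap F L i * algebraMap F L (df e 1), ?_⟩
        rw [E1, map_sub]
        linear_combination (-(algebraMap F L (e 0) - algebraMap F L (e 2)) ^ 2) * hi'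
      · refine ⟨algebraMap F L i * algebraMap F L (df e 0), ?_⟩
        rw [E0, map_sub]
        linear_combination (-(algebraMap F L (e 1) - algebraMap F L (e 2)) ^ 2) * hi'
    intro l
    fin_cases l
    · exact ⟨h0, t0⟩
    · exact ⟨h1, t1⟩
    · exact ⟨h2, t2⟩

end

end Pool.Agent.Q13.FT
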